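import Pool.Agent.H45.AD.Stm2
import Pool.Agent.H45.NF.AR2
import Pool.Agent.H45.PF.SIDE
import Pool.Agent.H45.PF.PIGF

/-! CO: the common relation in a window, for norms in a finite set. -/

set_option autoImplicit false

namespace Pool.Agent.H31.AD.CO

open Polynomial Pool.Agent.W223.HZ Pool.Agent.W223.PL Pool.Agent.Q276.PL Pool.Agent.H45.PF
open Pool.Agent.Q182.PL Pool.Agent.Q109.PLJ Pool.Agent.Q121.PL Pool.Agent.H45.AD

/-- the data of a point whose norm is a square -/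
def SqA (z : ℝ) (d x y n : ℤ) : Prop := d ≠ 0 ∧ 1 ≤ y ∧ 1 ≤ n ∧
  x ^ 2 - d * y ^ 2 = n ^ 2 ∧ BF z d x y n

theorem siden (k : ℕ) (l : ℤ[X]) (hl : Fam k l) (m : ℕ) (z W₀ : ℝ) (T : Finset ℤ)
    (x y n : ℤ → ℤ) (P Q : ℤ[X]) (hkm : k ≤ m) (hW₀ : 1 ≤ W₀)
    (hlc : ∀ i, |(l.coeff i : ℝ)| ≤ W₀) (hPc : ∀ i, |(P.coeff i : ℝ)| ≤ W₀)
    (hQc : ∀ i, |(Q.coeff i : ℝ)| ≤ W₀)
    (hT : ∀ τ ∈ T, SqA z (l.eval τ) (x τ) (y τ) (n τ))
    (hdP : P.natDegree < m) (hdQ : Q.natDegree < m)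
    (hco : IsCoprime (P.map (Int.castRingHom ℚ)) (Q.map (Int.castRingHom ℚ)))
    (hrel : ∀ τ ∈ T, (x τ - n τ) * P.eval τ + y τ * Q.eval τ = 0) :
    ∃ M : ℤ, M ≠ 0 ∧ |(M : ℝ)| ≤ ((2 * m + 2) * W₀) ^ (2 * m + 2) ∧
      ∀ τ ∈ T, z < (Int.gcd (l.eval τ) M : ℝ) := by
  have hAR' : ∀ τ ∈ T, ∃ e e' r s κ : ℤ, 1 ≤ e ∧ 1 ≤ e' ∧ 1 ≤ r ∧ 1 ≤ s ∧ e * e' = l.eval τ ∧
      (κ = 1 ∨ κ = 2) ∧ (x τ - n τ) * s = e * r * y τ ∧ (x τ + n τ) * r = e' * s * y τ ∧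
      e' * s ^ 2 - e * r ^ 2 = κ * n τ ∧ IsCoprime (e * r) s ∧ IsCoprime (e' * s) r ∧
      z < (e : ℝ) ∧ z < (e' : ℝ) := by
    intro τ hτ
    exact (hT τ hτ).2.2.2.2
  choose! e e' r s κ hall using hAR'
  have hy : ∀ τ ∈ T, y τ ≠ 0 := by
    intro τ hτ
    have := (hT τ hτ).2.1
    omega
  have hg : ∀ τ ∈ T, ∃ g : ℤ, P.eval τ = s τ * g ∧ Q.eval τ = -(e τ * r τ * g) := by
    intro τ hτ
    obtain ⟨he, he', hr, hs, hd, hκ, h1, h2, h3, hc1, hc2, -, -⟩ := hall τ hτ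
    have h4 : y τ * (e τ * r τ * P.eval τ + s τ * Q.eval τ) = 0 := by
      linear_combination s τ * hrel τ hτ - P.eval τ * h1
    have h5 := (mul_eq_zero.1 h4).resolve_left (hy τ hτ)
    have h6 : s τ ∣ e τ * r τ * P.eval τ := ⟨-Q.eval τ, by linear_combination h5⟩
    obtain ⟨g, hg⟩ := hc1.symm.dvd_of_dvd_mul_left h6
    refine ⟨g, hg, ?_⟩
    have hs0 : s τ ≠ 0 := by omega
    apply mul_left_cancel₀ hs0
    rw [hg] at h5
    linear_combination h5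
  have hbez := Pool.Agent.Q164.PL.bez
  by_cases hdv : l.map (Int.castRingHom ℚ) ∣ Q.map (Int.castRingHom ℚ)
  · have hlP : ¬ l.map (Int.castRingHom ℚ) ∣ P.map (Int.castRingHom ℚ) := fun h =>
      hl.irr.not_isUnit (hco.isUnit_of_dvd' h hdv)
    obtain ⟨U, W', R, hR0, hR, hRb⟩ := hbez m l P W₀ hW₀ (hl.deg.trans hkm) hdP.le hlc hPc
      (cop_of_not_dvd hl.irr hlP)
    refine ⟨R, hR0, hRb, fun τ hτT => ?_⟩
    obtain ⟨Q2, hQ2⟩ := dvd_of_map hl.prim hdv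
    obtain ⟨g, hg1, hg2⟩ := hg τ hτT
    obtain ⟨he, he', hr, hs, hd, hκ, -, -, -, hc1, hc2, hbe, hbe'⟩ := hall τ hτT
    have h1 : Q.eval τ = l.eval τ * Q2.eval τ := by rw [hQ2, eval_mul]
    have h2 : e' τ * Q2.eval τ = -(r τ * g) := by
      have he0 : e τ ≠ 0 := by omega
      apply mul_left_cancel₀ he0
      rw [hg2, ← hd] at h1
      linear_combination -h1
    have h3 : e' τ ∣ r τ * g := ⟨-Q2.eval τ, by linear_combination h2⟩
    have h4 : IsCoprime (e' τ) (r τ) := hc2.of_mul_left_left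
    have h5 : e' τ ∣ g := h4.dvd_of_dvd_mul_left h3
    have h6 : e' τ ∣ P.eval τ := by
      rw [hg1]
      exact h5.mul_left _
    have h7 : e' τ ∣ l.eval τ := ⟨e τ, by rw [← hd]; ring⟩
    have h8 : U.eval τ * l.eval τ + W'.eval τ * P.eval τ = R := by
      have := congrArg (Polynomial.eval τ) hR
      simpa using this
    have h9 : e' τ ∣ R := by
      rw [← h8]
      exact dvd_add (h7.mul_left _) (h6.mul_left _)
    refine le_gcd hbe' h7 h9 ?_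
    exact (hT τ hτT).1
  · obtain ⟨U, W', R, hR0, hR, hRb⟩ := hbez m l Q W₀ hW₀ (hl.deg.trans hkm) hdQ.le hlc hQc
      (cop_of_not_dvd hl.irr hdv)
    refine ⟨R, hR0, hRb, fun τ hτT => ?_⟩
    obtain ⟨g, hg1, hg2⟩ := hg τ hτT
    obtain ⟨he, he', hr, hs, hd, -, -, -, -, -, -, hbe, -⟩ := hall τ hτT
    have h1 : e τ ∣ l.eval τ := ⟨e' τ, hd.symm⟩
    have h3 : e τ ∣ Q.eval τ := ⟨-(r τ * g), by rw [hg2]; ring⟩
    have h8 : U.eval τ * l.eval τ + W'.eval τ * Q.eval τ = R := by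
      have := congrArg (Polynomial.eval τ) hR
      simpa using this
    have h9 : e τ ∣ R := by
      rw [← h8]
      exact dvd_add (h1.mul_left _) (h3.mul_left _)
    refine le_gcd hbe h1 h9 ?_
    exact (hT τ hτT).1

theorem clfn (k : ℕ) (l : ℤ[X]) (hl : Fam k l) (m n : ℕ) (η : ℤ) (z H : ℝ) (T : Finset ℤ)
    (x y ν : ℤ → ℤ) (P Q : ℤ[X]) (hkm : k ≤ m) (hm : 1 ≤ m) (hn : n = 2 * m)
    (hη : η = 1 ∨ η = -1) (hH : 1 ≤ H) (hlc : ∀ i, |(l.coeff i : ℝ)| ≤ H)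
    (hT : ∀ τ ∈ T, SqA z (l.eval τ) (x τ) (y τ) (ν τ))
    (hb : ∀ τ ∈ T, ∀ j < n, |(((x τ - ν τ) * τ ^ j : ℤ) : ℝ)| ≤ H ∧
      |((y τ * τ ^ j : ℤ) : ℝ)| ≤ H)
    (hPQ : P ≠ 0 ∨ Q ≠ 0) (hPm : P.natDegree < m) (hQm : Q.natDegree < m)
    (hrel : ∀ τ ∈ T, (x τ - η * ν τ) * P.eval τ + y τ * Q.eval τ = 0) :
    ∃ M : ℤ, M ≠ 0 ∧ |(M : ℝ)| ≤ ((2 * n + 2) * (2 * n * H) ^ (2 * n)) ^ (2 * n + 2) ∧
      ∃ E ⊆ T, (E.card : ℝ) ≤ (n : ℝ) ^ 2 ∧
      ∀ τ ∈ T \ E, z < (Int.gcd (l.eval τ) M : ℝ) := by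
  have hn1 : (1 : ℝ) ≤ n := by
    have : 1 ≤ n := by omega
    exact_mod_cast this
  have hl0 : l ≠ 0 := by
    rintro rfl
    have := hl.irr.ne_zero
    simp at this
  -- the relation
  have key : ∃ A B : ℤ[X], (A ≠ 0 ∨ B ≠ 0) ∧ A.natDegree < n ∧ B.natDegree < n ∧
      (∀ τ ∈ T, (x τ - ν τ) * A.eval τ + y τ * B.eval τ = 0) := by
    have hmul : (l * P).natDegree < n := by
      refine lt_of_le_of_lt Polynomial.natDegree_mul_le ?_
      have := hl.deg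
      omega
    rcases hη with h | h
    · refine ⟨P, Q, hPQ, by omega, by omega, ?_⟩
      intro τ hτ
      have := hrel τ hτ
      rwa [h, one_mul] at this
    · refine ⟨Q, l * P, ?_, by omega, hmul, ?_⟩
      · rcases hPQ with h | h
        · right
          exact mul_ne_zero hl0 h
        · left; exact h
      intro τ hτ
      obtain ⟨-, hy1, -, hpell, -⟩ := hT τ hτ
      have h1 := hrel τ hτ
      rw [h] at h1
      have hy0 : y τ ≠ 0 := by omega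
      apply mul_left_cancel₀ hy0
      rw [mul_zero, eval_mul]
      linear_combination (x τ - ν τ) * h1 - P.eval τ * hpell
  obtain ⟨A, B, hAB, hA, hB, hr⟩ := key
  have hR2D := Pool.Agent.Q94.PL.r2d
  have hMIN := Pool.Agent.Q182.PL.min
  have hdet := hR2D n T (fun τ => x τ - ν τ) y A B hAB hA hB hr
  obtain ⟨T₁, hT₁, hc₁, P₁, Q₁, -, hP₁, hQ₁, hcP₁, hcQ₁, hco₁, hre₁⟩ :=
    hMIN n (by omega) T (fun τ => x τ - ν τ) y H hH hb hdet
  obtain ⟨W, hW⟩ : ∃ W : ℝ, W = (2 * (n : ℝ) * H) ^ (2 * n) := ⟨_, rfl⟩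
  rw [← hW] at hcP₁ hcQ₁ ⊢
  have h2nH : 1 ≤ 2 * (n : ℝ) * H := by nlinarith
  have hHW : H ≤ W := by
    rw [hW]
    refine le_trans ?_ (le_self_pow₀ h2nH (by omega))
    nlinarith
  have hW1 : 1 ≤ W := hH.trans hHW
  obtain ⟨M, hM0, hM, hE1⟩ := siden k l hl n z W T₁ x y ν P₁ Q₁
    (by omega) hW1 (fun i => (hlc i).trans hHW) hcP₁ hcQ₁
    (fun τ hτ => hT τ (hT₁ hτ)) hP₁ hQ₁ hco₁ hre₁
  refine ⟨M, hM0, hM, T \ T₁, Finset.sdiff_subset, ?_, ?_⟩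
  · exact_mod_cast hc₁
  · intro τ hτ
    apply hE1
    rw [Finset.mem_sdiff, Finset.mem_sdiff] at hτ
    tauto

/-- points whose norm is not a square are few -/
theorem nonsq (k : ℕ) (l : ℤ[X]) (hF : Fam k l) (m : ℕ) (z Z L Λ W : ℝ) (J T : Finset ℤ)
    (x y : ℤ → ℤ) (A B : ℤ[X]) (hkm : k ≤ m) (hL1 : 1 ≤ L) (hΛ1 : 1 ≤ Λ) (hZ : 1 ≤ Z)
    (hJZ : ∀ N ∈ J, |(N : ℝ)| ≤ Z)
    (h4m : (3 * m : ℝ) ≤ Λ) (hlog : Real.log (120 * √L * Λ) ≤ 2 * Λ)
    (hT : ∀ τ ∈ T, PtA z L J l x y τ) (hAd : A.natDegree < m) (hBd : B.natDegree < m)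
    (hAc : ∀ i, |(A.coeff i : ℝ)| ≤ W)
    (hcop : IsCoprime (A.map (Int.castRingHom ℚ)) (B.map (Int.castRingHom ℚ)))
    (hg : ∀ τ ∈ T, ∃ g : ℤ, g ≠ 0 ∧ A.eval τ = y τ * g ∧ B.eval τ = - x τ * g)
    (hns : ∀ τ ∈ T, ¬ IsSquare (x τ ^ 2 - l.eval τ * y τ ^ 2))
    (hexp : Z * (m * W * L ^ m) ≤ Real.exp Λ) :
    (T.card : ℝ) ≤ (J.card : ℝ) * (400000 * √L * Λ ^ 3) := by
  classical
  have hsL : 0 ≤ √L := Real.sqrt_nonneg _
  have hW1 : 0 ≤ 400000 * √L * Λ ^ 3 := by positivity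
  have hmem : ∀ τ ∈ T, x τ ^ 2 - l.eval τ * y τ ^ 2 ∈ J := by
    intro τ hτ
    exact (hT τ hτ).2.2.2.2.2.2.1
  have hsub : T ⊆ J.biUnion fun N => T.filter fun τ => x τ ^ 2 - l.eval τ * y τ ^ 2 = N := by
    intro τ hτ
    rw [Finset.mem_biUnion]
    exact ⟨_, hmem τ hτ, Finset.mem_filter.2 ⟨hτ, rfl⟩⟩
  have h1 : (T.card : ℝ) ≤ ∑ N ∈ J,
      ((T.filter fun τ => x τ ^ 2 - l.eval τ * y τ ^ 2 = N).card : ℝ) := by
    exact_mod_cast (Finset.card_le_card hsub).trans Finset.card_biUnion_le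
  have h2 : ∀ N ∈ J, ((T.filter fun τ => x τ ^ 2 - l.eval τ * y τ ^ 2 = N).card : ℝ) ≤
      400000 * √L * Λ ^ 3 := by
    intro N hN
    by_cases hsq : IsSquare N
    · have hemp : (T.filter fun τ => x τ ^ 2 - l.eval τ * y τ ^ 2 = N) = ∅ := by
        rw [Finset.filter_eq_empty_iff]
        intro τ hτ h3
        apply hns τ hτ
        rw [h3]
        exact hsq
      rw [hemp]
      simpa using hW1
    have h3 := cuq_true (GF N l A B) (3 * m) (deg_GF hF.deg hkm hAd hBd)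
      (nsqf _ l hF A B _ hcop hsq) L Λ hL1 hΛ1 (by push_cast; exact h4m)
      (T.filter fun τ => x τ ^ 2 - l.eval τ * y τ ^ 2 = N)
      (by
        intro τ hτ
        rw [Finset.mem_filter] at hτ
        exact (hT τ hτ.1).1)
      (by
        intro τ hτ
        rw [Finset.mem_filter] at hτ
        obtain ⟨hτT, hN'⟩ := hτ
        obtain ⟨g, hg0, hgA, hgB⟩ := hg τ hτT
        refine ⟨N * g, ?_, ?_⟩
        · rw [eval_GF, hgA, hgB, ← hN']
          ring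
        · refine le_trans ?_ hexp
          have h4 := val_bnd A m _ L τ hAd hAc hL1 (hT τ hτT).1
          have hy1 : 1 ≤ y τ := (hT τ hτT).2.2.2.1
          have h5 : |(g : ℝ)| ≤ |((A.eval τ : ℤ) : ℝ)| := by
            rw [hgA]
            push_cast
            rw [abs_mul]
            have h6 : (1 : ℝ) ≤ |(y τ : ℝ)| := by
              rw [abs_of_nonneg (by exact_mod_cast (by omega : (0 : ℤ) ≤ y τ))]
              exact_mod_cast hy1
            nlinarith [abs_nonneg (g : ℝ)]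
          have h6 : |(N : ℝ)| ≤ Z := hJZ N hN
          push_cast
          rw [abs_mul]
          exact mul_le_mul h6 (h5.trans h4) (abs_nonneg _) (by linarith))
    refine h3.trans ?_
    have h4 : 200000 * √L * Λ ^ 2 * Real.log (120 * √L * Λ) ≤ 200000 * √L * Λ ^ 2 * (2 * Λ) :=
      mul_le_mul_of_nonneg_left hlog (by positivity)
    linarith
  refine h1.trans ((Finset.sum_le_sum h2).trans ?_)
  rw [Finset.sum_const, nsmul_eq_mul]

theorem t : StmtCO := by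
  intro k l hF m n L z Z Λ H J T x y hkm hm hn hL1 hz1 hZ1 hΛ1 h4m hlog hH1 hlH hbase hJZ hHx hdet hb2
  classical
  have hnr : (n : ℝ) = 2 * m := by rw [hn]; push_cast; ring
  have hm1 : (1 : ℝ) ≤ m := by exact_mod_cast hm
  have hsL1 : 1 ≤ √L := by rw [Real.one_le_sqrt]; exact hL1
  have h2nH : 1 ≤ 2 * (n : ℝ) * H := by rw [hnr]; nlinarith
  have hbig1 : 1 ≤ ((2 * n + 2) * (2 * n * H) ^ (2 * n)) ^ (2 * n + 2) := by
    apply one_le_pow₀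
    have h1 : 1 ≤ (2 * (n : ℝ) * H) ^ (2 * n) := one_le_pow₀ h2nH
    have h2 : (1 : ℝ) ≤ 2 * n + 2 := by rw [hnr]; linarith
    nlinarith
  have hHx0 : ∀ τ ∈ T, ∀ j < m, |((x τ * τ ^ j : ℤ) : ℝ)| ≤ H ∧
      |((y τ * τ ^ j : ℤ) : ℝ)| ≤ H := by
    intro τ hτ j hj
    have h1 := hHx τ hτ 0 le_rfl (hbase τ hτ).2.2.1 j (by omega)
    rw [sub_zero] at h1
    exact h1
  obtain ⟨T', hT'T, hT'c, A, B, hAB, hAd, hBd, hAc, hBc, hcop, hrel⟩ :=
    Pool.Agent.Q182.PL.min m hm T x y H hH1 hHx0 hdet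
  have hT'c' : ((T \ T').card : ℝ) ≤ (m : ℝ) ^ 2 := by exact_mod_cast hT'c
  obtain ⟨W₁, hW₁⟩ : ∃ W₁, W₁ = 400000 * √L * Λ ^ 3 := ⟨_, rfl⟩
  rw [← hW₁]
  have hW₁0 : 0 ≤ W₁ := by rw [hW₁]; positivity
  have hm4 : 0 ≤ 2 * (n : ℝ) ^ 2 := by positivity
  have hcard : (T.card : ℝ) ≤ T'.card + (m : ℝ) ^ 2 := by
    have h1 := Finset.card_sdiff_add_card_eq_card hT'T
    have h2 : (T.card : ℝ) = ((T \ T').card : ℝ) + T'.card := by exact_mod_cast h1.symm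
    linarith
  -- all points are exceptional
  have hfin : ((T'.card : ℝ) ≤ ((J.card : ℝ) + 1) * W₁) → ∃ M : ℤ, M ≠ 0 ∧
      |(M : ℝ)| ≤ (((2 * n + 2) * (2 * n * H) ^ (2 * n)) ^ (2 * n + 2)) ^ 2 ∧ ∃ E ⊆ T,
      (E.card : ℝ) ≤ (m : ℝ) ^ 2 + 2 * (n : ℝ) ^ 2 + ((J.card : ℝ) + 1) * W₁ ∧
      ∀ τ ∈ T \ E, z < (Int.gcd (l.eval τ) M : ℝ) := by
    intro h
    refine ⟨1, one_ne_zero, ?_, T, Finset.Subset.refl _, by linarith, ?_⟩
    · simp only [Int.cast_one, abs_one]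
      exact one_le_pow₀ hbig1
    · intro τ hτ
      simp at hτ
  rcases T'.eq_empty_or_nonempty with hT'e | ⟨τ₀, hτ₀⟩
  · apply hfin
    rw [hT'e]
    have : 0 ≤ ((J.card : ℝ) + 1) * W₁ := by positivity
    simpa using this
  have hA0 : A ≠ 0 := by
    intro hA
    have h1 := hrel τ₀ hτ₀
    rw [hA, Polynomial.eval_zero, mul_zero, zero_add] at h1
    have h2 : y τ₀ ≠ 0 := by
      have := (hbase τ₀ (hT'T hτ₀)).2.2.2.1
      omega
    refine no_root hcop τ₀ (by rw [hA, Polynomial.eval_zero]) ?_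
    exact (mul_eq_zero.mp h1).resolve_left h2
  -- the points
  have hg : ∀ τ ∈ T', ∃ g : ℤ, g ≠ 0 ∧ A.eval τ = y τ * g ∧ B.eval τ = - x τ * g := by
    intro τ hτ
    have h1 := hrel τ hτ
    have hy1 := (hbase τ (hT'T hτ)).2.2.2.1
    have hcx : IsCoprime (y τ) (x τ) := (hbase τ (hT'T hτ)).2.2.2.2.1.symm
    have h2 : y τ ∣ x τ * A.eval τ := by
      refine ⟨-B.eval τ, ?_⟩
      linear_combination h1
    obtain ⟨g, hg⟩ := hcx.dvd_of_dvd_mul_left h2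
    have hy0 : y τ ≠ 0 := by omega
    have h3 : B.eval τ = - x τ * g := by
      apply mul_left_cancel₀ hy0
      rw [hg] at h1
      linear_combination h1
    refine ⟨g, fun hg0 => ?_, hg, h3⟩
    rw [hg0, mul_zero] at hg h3
    exact no_root hcop τ hg h3
  -- bounds for the values
  have hbW : Z * (m * (2 * m * H) ^ (2 * m) * L ^ m) ≤ Real.exp Λ := by
    refine le_trans ?_ hb2
    apply mul_le_mul_of_nonneg_left _ (by linarith)
    have h6 : (2 * (m : ℝ) * H) ^ (2 * m) ≤ (2 * (n : ℝ) * H) ^ (2 * n) := by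
      have h7 : 2 * (m : ℝ) * H ≤ 2 * (n : ℝ) * H := by rw [hnr]; nlinarith
      have h8 : 1 ≤ 2 * (n : ℝ) * H := by rw [hnr]; nlinarith
      exact (pow_le_pow_left₀ (by positivity) h7 _).trans
        (pow_le_pow_right₀ h8 (by omega))
    have h9 : L ^ m ≤ L ^ n := pow_le_pow_right₀ hL1 (by omega)
    have h5 : (m : ℝ) ≤ n := by rw [hnr]; linarith
    exact mul_le_mul (mul_le_mul h5 h6 (by positivity) (by positivity)) h9 (by positivity)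
      (by positivity)
  -- the nonsquare norms
  obtain ⟨E₀, hE₀⟩ : ∃ E₀ : Finset ℤ, E₀ = T'.filter fun τ =>
    ¬ IsSquare (x τ ^ 2 - l.eval τ * y τ ^ 2) := ⟨_, rfl⟩
  have hE₀T : E₀ ⊆ T' := by rw [hE₀]; exact Finset.filter_subset _ _
  have hE₀c : (E₀.card : ℝ) ≤ (J.card : ℝ) * W₁ := by
    rw [hW₁]
    refine nonsq k l hF m z Z L Λ _ J E₀ x y A B hkm hL1 hΛ1 hZ1 hJZ (by linarith) hlog
      (fun τ hτ => hbase τ (hT'T (hE₀T hτ))) hAd hBd hAc hcop (fun τ hτ => hg τ (hE₀T hτ)) ?_ hbW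
    intro τ hτ
    rw [hE₀] at hτ
    exact (Finset.mem_filter.1 hτ).2
  obtain ⟨T'', hT''⟩ : ∃ T'' : Finset ℤ, T'' = T'.filter fun τ =>
    IsSquare (x τ ^ 2 - l.eval τ * y τ ^ 2) := ⟨_, rfl⟩
  have hT''T' : T'' ⊆ T' := by rw [hT'']; exact Finset.filter_subset _ _
  have hT''T : T'' ⊆ T := hT''T'.trans hT'T
  have hsplit : T'.card = T''.card + E₀.card := by
    rw [hT'', hE₀]
    exact (Finset.card_filter_add_card_filter_not _).symm
  have hν : ∀ τ ∈ T'', ∃ ν : ℤ, SqA z (l.eval τ) (x τ) (y τ) ν ∧ (ν : ℝ) ≤ Z ∧ ν ≤ x τ := by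
    intro τ hτ
    have h1 : IsSquare (x τ ^ 2 - l.eval τ * y τ ^ 2) := by
      rw [hT''] at hτ
      exact (Finset.mem_filter.1 hτ).2
    obtain ⟨hτL, hl0, hx0, hy1, hcop, hne, hJm, hbf⟩ := hbase τ (hT''T hτ)
    obtain ⟨w, hw⟩ := h1
    have hw0 : w ≠ 0 := by
      rintro rfl
      exact hne (by simpa using hw)
    have hw1 : 1 ≤ |w| := Int.one_le_abs hw0
    have hw2 : x τ ^ 2 - l.eval τ * y τ ^ 2 = |w| ^ 2 := by
      rw [hw, sq_abs]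
      ring
    have hb := hbf |w| hw1 hw2
    have hZn : (((|w| : ℤ)) : ℝ) ^ 2 ≤ Z := by
      have h2 := hJZ _ hJm
      rw [hw2] at h2
      push_cast at h2 ⊢
      rw [abs_of_nonneg (by positivity)] at h2
      exact h2
    have hw1r : (1 : ℝ) ≤ ((|w| : ℤ) : ℝ) := by exact_mod_cast hw1
    refine ⟨|w|, ⟨hl0, hy1, hw1, hw2, hb⟩, ?_, ?_⟩
    · nlinarith
    · obtain ⟨e, e', r, s, κ, he, he', hr, hs, -, -, h3, -⟩ := hb
      have h4 : 0 ≤ (x τ - |w|) * s := by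
        rw [h3]
        positivity
      have h5 : 0 ≤ x τ - |w| := by
        by_contra h6
        push Not at h6
        nlinarith
      omega
  choose! ν hν using hν
  by_cases hNS : NonSq (B ^ 2 - l * A ^ 2)
  · apply hfin
    have hdG : (B ^ 2 - l * A ^ 2).natDegree ≤ 3 * m := by
      have h1 := deg_GF (n := 1) (l := l) (P := A) (Q := B) hF.deg hkm hAd hBd
      unfold GF at h1
      rwa [C_1, one_mul] at h1
    have h1 := cuq_true (B ^ 2 - l * A ^ 2) (3 * m) hdG hNS L Λ hL1 hΛ1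
      (by push_cast; linarith) T'' (fun τ hτ => (hbase τ (hT''T hτ)).1) (fun τ hτ => by
        obtain ⟨g, hg0, hgA, hgB⟩ := hg τ (hT''T' hτ)
        obtain ⟨⟨-, hy1, hν1, heq, -⟩, hνZ, -⟩ := hν τ hτ
        refine ⟨ν τ * g, ?_, ?_⟩
        · rw [Polynomial.eval_sub, Polynomial.eval_mul, Polynomial.eval_pow, Polynomial.eval_pow,
            hgA, hgB]
          linear_combination (-g ^ 2) * heq
        · have h2 := val_bnd A m _ L τ hAd hAc hL1 (hbase τ (hT''T hτ)).1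
          have h3 : |(g : ℝ)| ≤ |((A.eval τ : ℤ) : ℝ)| := by
            rw [hgA]
            push_cast
            rw [abs_mul]
            have h4 : (1 : ℝ) ≤ |(y τ : ℝ)| := by
              rw [abs_of_nonneg (by exact_mod_cast (by omega : (0 : ℤ) ≤ y τ))]
              exact_mod_cast hy1
            nlinarith [abs_nonneg (g : ℝ)]
          refine le_trans ?_ hbW
          push_cast
          rw [abs_mul, abs_of_nonneg (by exact_mod_cast (by omega : (0 : ℤ) ≤ ν τ))]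
          exact mul_le_mul hνZ (h3.trans h2) (abs_nonneg _) (by linarith))
    have h2 : (T''.card : ℝ) ≤ W₁ := by
      refine h1.trans ?_
      rw [hW₁]
      have h4 : 200000 * √L * Λ ^ 2 * Real.log (120 * √L * Λ) ≤ 200000 * √L * Λ ^ 2 * (2 * Λ) :=
        mul_le_mul_of_nonneg_left hlog (by positivity)
      linarith
    have h3 : (T'.card : ℝ) = T''.card + E₀.card := by exact_mod_cast hsplit
    rw [h3]
    linarith
  · obtain ⟨P, Q, hPQ, hPd, hQd, hPQr⟩ := Pool.Agent.H45.NF.str2 k l hF m A B hA0 hAd hcop hNS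
    obtain ⟨T₁, hT₁⟩ : ∃ T₁ : Finset ℤ, T₁ = T''.filter fun τ =>
      (x τ - ν τ) * P.eval τ + y τ * Q.eval τ = 0 := ⟨_, rfl⟩
    obtain ⟨T₂, hT₂⟩ : ∃ T₂ : Finset ℤ, T₂ = T''.filter fun τ =>
      (x τ + ν τ) * P.eval τ + y τ * Q.eval τ = 0 := ⟨_, rfl⟩
    have hT₁T : T₁ ⊆ T'' := by rw [hT₁]; exact Finset.filter_subset _ _
    have hT₂T : T₂ ⊆ T'' := by rw [hT₂]; exact Finset.filter_subset _ _
    have hT12 : ∀ τ ∈ T'', τ ∈ T₁ ∨ τ ∈ T₂ := by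
      intro τ hτ
      obtain ⟨g, hg0, hgA, hgB⟩ := hg τ (hT''T' hτ)
      obtain ⟨⟨-, hy1, hν1, heq, -⟩, hνZ, -⟩ := hν τ hτ
      rcases hPQr τ (x τ) (y τ) g (ν τ) hg0 hy1 heq hgA hgB with h | h
      · left
        rw [hT₁]
        exact Finset.mem_filter.mpr ⟨hτ, h⟩
      · right
        rw [hT₂]
        exact Finset.mem_filter.mpr ⟨hτ, h⟩
    have hHν : ∀ τ ∈ T'', ∀ j < n, |(((x τ - ν τ) * τ ^ j : ℤ) : ℝ)| ≤ H ∧
        |((y τ * τ ^ j : ℤ) : ℝ)| ≤ H := by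
      intro τ hτ j hj
      obtain ⟨⟨-, -, hν1, -⟩, -, hνx⟩ := hν τ hτ
      exact hHx τ (hT''T hτ) (ν τ) (by omega) hνx j hj
    obtain ⟨M₁, hM₁0, hM₁, E₁, hE₁, hE₁c, hg₁⟩ := clfn k l hF m n 1 z H T₁ x y ν P Q hkm hm hn
      (Or.inl rfl) hH1 hlH (fun τ hτ => (hν τ (hT₁T hτ)).1) (fun τ hτ => hHν τ (hT₁T hτ))
      hPQ hPd hQd (fun τ hτ => by
        rw [hT₁] at hτ
        rw [one_mul]
        exact (Finset.mem_filter.mp hτ).2)
    obtain ⟨M₂, hM₂0, hM₂, E₂, hE₂, hE₂c, hg₂⟩ := clfn k l hF m n (-1) z H T₂ x y ν P Q hkm hm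
      hn (Or.inr rfl) hH1 hlH (fun τ hτ => (hν τ (hT₂T hτ)).1) (fun τ hτ => hHν τ (hT₂T hτ))
      hPQ hPd hQd (fun τ hτ => by
        rw [hT₂] at hτ
        have := (Finset.mem_filter.mp hτ).2
        linear_combination this)
    refine ⟨M₁ * M₂, mul_ne_zero hM₁0 hM₂0, ?_, (T \ T') ∪ (E₀ ∪ (E₁ ∪ E₂)), ?_, ?_, ?_⟩
    · push_cast
      rw [abs_mul]
      rw [pow_two]
      exact mul_le_mul hM₁ hM₂ (abs_nonneg _) (by linarith)
    · refine Finset.union_subset Finset.sdiff_subset (Finset.union_subset (hE₀T.trans hT'T)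
        (Finset.union_subset ((hE₁.trans hT₁T).trans hT''T) ((hE₂.trans hT₂T).trans hT''T)))
    · have h1 : (((T \ T') ∪ (E₀ ∪ (E₁ ∪ E₂))).card : ℝ) ≤
          ((T \ T').card : ℝ) + (E₀.card + (E₁.card + E₂.card)) := by
        have h2 := Finset.card_union_le (T \ T') (E₀ ∪ (E₁ ∪ E₂))
        have h3 := Finset.card_union_le E₀ (E₁ ∪ E₂)
        have h5 := Finset.card_union_le E₁ E₂
        have h4 : ((T \ T') ∪ (E₀ ∪ (E₁ ∪ E₂))).card ≤
          (T \ T').card + (E₀.card + (E₁.card + E₂.card)) := by omega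
        exact_mod_cast h4
      linarith
    · intro τ hτ
      rw [Finset.mem_sdiff, Finset.mem_union, Finset.mem_union, Finset.mem_union, not_or, not_or,
        not_or] at hτ
      obtain ⟨hτT, hτ1, hτ0, hτ2, hτ3⟩ := hτ
      have hτT' : τ ∈ T' := by
        by_contra h
        exact hτ1 (Finset.mem_sdiff.mpr ⟨hτT, h⟩)
      have hτT'' : τ ∈ T'' := by
        rw [hE₀, Finset.mem_filter, not_and, not_not] at hτ0
        rw [hT'', Finset.mem_filter]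
        exact ⟨hτT', hτ0 hτT'⟩
      have hne : l.eval τ ≠ 0 := (hbase τ hτT).2.1
      have hgle : ∀ M : ℤ, M ∣ M₁ * M₂ →
          (Int.gcd (l.eval τ) M : ℝ) ≤ Int.gcd (l.eval τ) (M₁ * M₂) := by
        intro M hM
        have h1 : Int.gcd (l.eval τ) M ∣ Int.gcd (l.eval τ) (M₁ * M₂) :=
          Int.gcd_dvd_gcd_of_dvd_right _ hM
        exact_mod_cast Nat.le_of_dvd (Int.gcd_pos_of_ne_zero_left _ hne) h1
      rcases hT12 τ hτT'' with h | h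
      · exact (hg₁ τ (Finset.mem_sdiff.mpr ⟨h, hτ2⟩)).trans_le (hgle M₁ (Dvd.intro _ rfl))
      · exact (hg₂ τ (Finset.mem_sdiff.mpr ⟨h, hτ3⟩)).trans_le (hgle M₂ (Dvd.intro_left _ rfl))


end Pool.Agent.H31.AD.CO
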