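import Pool.Agent.H45.AD.Stm2

/-! PI: the points of a window in one class. -/

set_option autoImplicit false

namespace Pool.Agent.H31.AD.PI

open Polynomial Pool.Agent.W223.HZ Pool.Agent.W223.PL Pool.Agent.Q276.PL Pool.Agent.H45.PF
open Pool.Agent.Q182.PL Pool.Agent.Q121.PL Pool.Agent.H45.AD

theorem log_bnd52 (D : ℝ) (m : ℕ) (hm : 1 ≤ m) (hD : 1 ≤ D) (hlm : (m : ℝ) ≤ Real.log D) :
    Real.log (120 * √(D ^ (1 / (8 * (m : ℝ)))) * (52 * (m : ℝ) ^ 2 * Real.log D)) ≤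
      2 * (52 * (m : ℝ) ^ 2 * Real.log D) := by
  have h1 := log_bnd' D m hm hD hlm
  obtain ⟨s, hs⟩ : ∃ s, s = √(D ^ (1 / (8 * (m : ℝ)))) := ⟨_, rfl⟩
  have hs0 : 0 < s := by
    rw [hs]
    exact Real.sqrt_pos.mpr (Real.rpow_pos_of_pos (by linarith) _)
  obtain ⟨u, hu⟩ : ∃ u, u = (m : ℝ) ^ 2 * Real.log D := ⟨_, rfl⟩
  have hm1 : (1 : ℝ) ≤ m := by exact_mod_cast hm
  have hu1 : 1 ≤ u := by
    rw [hu]
    nlinarith
  rw [← hs, show 120 * s * (50 * (m : ℝ) ^ 2 * Real.log D) = 120 * s * (50 * u) by rw [hu]; ring,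
    show 2 * (50 * (m : ℝ) ^ 2 * Real.log D) = 100 * u by rw [hu]; ring] at h1
  rw [← hs, show 120 * s * (52 * (m : ℝ) ^ 2 * Real.log D) = (120 * s * (50 * u)) * (52 / 50) by
    rw [hu]; ring, show 2 * (52 * (m : ℝ) ^ 2 * Real.log D) = 100 * u + 4 * u by rw [hu]; ring,
    Real.log_mul (by positivity) (by norm_num)]
  have h2 : Real.log (52 / 50) ≤ 52 / 50 - 1 := Real.log_le_sub_one_of_pos (by norm_num)
  linarith

theorem t (hPD : StmtPD) (hCO : StmtCO) : Pool.Agent.H45.AD.StmtPI := by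
  intro k ε θ hε hε1 hθ
  obtain ⟨C₇, hC7, hPV⟩ := pva hPD k ε θ hε hε1 hθ
  refine ⟨C₇ + (k + 1) + 1 / ε + 10 ^ 12, by
    have h1 : (0 : ℝ) ≤ k := Nat.cast_nonneg k
    have h2 : 0 < 1 / ε := by positivity
    linarith, ?_⟩
  intro D V σ z Z S m l T Sp a kk R hD hσ0 hσm hCm hV1 hVD hz1 hZ1 hZD hN hSp hpa hqD hT
  obtain ⟨C₈, hC₈⟩ : ∃ C₈ : ℝ, C₈ = C₇ + (k + 1) + 1 / ε + 10 ^ 12 := ⟨_, rfl⟩
  rw [← hC₈] at hD hσm hCm ⊢
  have hk0 : (0 : ℝ) ≤ k := Nat.cast_nonneg k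
  have hε0 : 0 < 1 / ε := by positivity
  have hC87 : C₇ ≤ C₈ := by rw [hC₈]; linarith
  have hC8k : (k : ℝ) + 1 ≤ C₈ := by rw [hC₈]; linarith
  have hC8n : (10 : ℝ) ^ 12 ≤ C₈ := by rw [hC₈]; linarith
  obtain ⟨hmC, hσle⟩ := ax1 (by linarith : 1 ≤ C₈) hσ0 hσm
  have hm1 : (1 : ℝ) ≤ m := by linarith
  have hm : 1 ≤ m := by exact_mod_cast hm1
  have hkm : k ≤ m := by
    have : (k : ℝ) ≤ m := by linarith
    exact_mod_cast this
  have hD1 : 1 ≤ D := by linarith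
  have hDpos : 0 < D := by linarith
  have hlm : (m : ℝ) ≤ Real.log D := ax2 (by linarith : 1 ≤ C₈) (by linarith) hCm
  have hl1 : 1 ≤ Real.log D := hm1.trans hlm
  have hC7m : C₇ * m ≤ Real.log D := (mul_le_mul_of_nonneg_right hC87 (by linarith)).trans hCm
  have hσm7 : C₇ * (2 * σ + 1) ^ 2 ≤ m :=
    (mul_le_mul_of_nonneg_right hC87 (by positivity)).trans hσm
  have hZD1 : Z ≤ D := by
    refine hZD.trans ?_
    have := Real.rpow_le_rpow_of_exponent_le hD1 (by norm_num : (1 : ℝ) / 8 ≤ 1)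
    rwa [Real.rpow_one] at this
  obtain ⟨Λ, hΛ⟩ : ∃ Λ, Λ = 52 * (m : ℝ) ^ 2 * Real.log D := ⟨_, rfl⟩
  obtain ⟨hm2, hml, hm2l, hu1'⟩ := ax3 hm1 hl1
  have h40 : (52 : ℝ) * m ≤ Λ := by rw [hΛ]; linarith
  have hΛ1 : 1 ≤ Λ := by linarith
  obtain ⟨L, hL⟩ : ∃ L, L = D ^ (1 / (8 * (m : ℝ))) := ⟨_, rfl⟩
  have hL1 : 1 ≤ L := by rw [hL]; exact Real.one_le_rpow hD1 (by positivity)
  have hlog : Real.log (120 * √L * Λ) ≤ 2 * Λ := by
    rw [hL, hΛ]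
    exact log_bnd52 D m hm hD1 hlm
  have hsL : √L = D ^ (1 / (16 * (m : ℝ))) := by rw [hL]; exact sqrt_eq D m hm hD1
  have hsL1 : 1 ≤ √L := by rw [Real.one_le_sqrt]; exact hL1
  obtain ⟨n, hn⟩ : ∃ n, n = 2 * m := ⟨_, rfl⟩
  have hnr : (n : ℝ) = 2 * m := by rw [hn]; push_cast; ring
  obtain ⟨hb1, hb2, hb3⟩ := bnd1 D σ D m n hm hn hD1 hlm hσle hD1 le_rfl
  rw [← hL] at hb2
  rw [← hsL]
  simp only [← hL] at hT
  -- `L ≤ S`
  have hDε : D ^ ε ≤ S := hN.Sge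
  have hS0 : 0 < S := lt_of_lt_of_le (Real.rpow_pos_of_pos hDpos _) hDε
  have hS1 : 1 ≤ S := (Real.one_le_rpow hD1 hε.le).trans hDε
  have hLS : L ≤ S := by
    refine le_trans ?_ hDε
    rw [hL]
    apply Real.rpow_le_rpow_of_exponent_le hD1
    have h1 : 1 / ε ≤ m := by
      refine le_trans ?_ hmC
      rw [hC₈]
      linarith
    rw [div_le_iff₀ (by positivity)]
    exact ax7 hε h1
  -- the reduction
  suffices hmain : ∃ M : ℤ, M ≠ 0 ∧ |(M : ℝ)| ≤ Real.exp (500 * (m : ℝ) ^ 3 * Real.log D) ∧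
      ∃ E ⊆ T, (E.card : ℝ) ≤ (m : ℝ) ^ 2 + 2 * (n : ℝ) ^ 2 + (2 * Z + 2) *
        (400000 * √L * Λ ^ 3) ∧
      ∀ τ ∈ T \ E, z < (Int.gcd (l.eval τ) M : ℝ) by
    obtain ⟨M, hM0, hM, E, hE, hEc, hgcd⟩ := hmain
    refine ⟨M, hM0, ?_, E, hE, ?_, hgcd⟩
    · have h1 : Real.log |(M : ℝ)| ≤ 500 * (m : ℝ) ^ 3 * Real.log D := by
        have hpos : 0 < |(M : ℝ)| := abs_pos.mpr (by exact_mod_cast hM0)
        exact (Real.log_le_iff_le_exp hpos).mpr hM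
      refine h1.trans ?_
      have h2 : (500 : ℝ) ≤ C₈ := by linarith
      have h3 : 0 ≤ (m : ℝ) ^ 3 * Real.log D := by positivity
      have h9 := mul_le_mul_of_nonneg_right h2 h3
      rw [mul_assoc, mul_assoc]
      exact h9
    · refine hEc.trans ?_
      obtain ⟨u, hu⟩ : ∃ u, u = (m : ℝ) ^ 2 * Real.log D := ⟨_, rfl⟩
      have hΛu : Λ = 52 * u := by rw [hΛ, hu]; ring
      rw [← hu, hΛu, hnr]
      have hu1 : 1 ≤ u := by rw [hu]; exact hu1'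
      have hmu : (m : ℝ) ≤ u := by rw [hu]; exact hml
      obtain ⟨hzs, h3, h4⟩ := ax5 hu1 (by linarith : 1 ≤ Z) hsL1
      have h1 : (m : ℝ) ^ 2 + 2 * (2 * (m : ℝ)) ^ 2 = 9 * (m : ℝ) ^ 2 := by ring
      have h2 : (m : ℝ) ^ 2 ≤ u := by rw [hu]; exact hm2l
      have hu3 : 0 ≤ u ^ 3 := by positivity
      have h5 : (2 * Z + 2) * (400000 * √L * (52 * u) ^ 3) ≤ 224972800000 * (Z * √L * u ^ 3) := by
        have h10 : 0 ≤ √L * u ^ 3 := by positivity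
        have h11 : 2 * Z + 2 ≤ 4 * Z := by linarith
        have h12 := mul_le_mul_of_nonneg_right h11 h10
        have h13 : (2 * Z + 2) * (400000 * √L * (52 * u) ^ 3) =
            56243200000 * ((2 * Z + 2) * (√L * u ^ 3)) := by ring
        have h14 : 224972800000 * (Z * √L * u ^ 3) = 56243200000 * (4 * Z * (√L * u ^ 3)) := by ring
        rw [h13, h14]
        linarith
      rw [h1]
      have h6 : 0 ≤ Z * √L * u ^ 3 := by positivity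
      have h7 : C₈ * Z * √L * u ^ 3 = C₈ * (Z * √L * u ^ 3) := by ring
      rw [h7]
      have h8 : 10 ^ 12 * (Z * √L * u ^ 3) ≤ C₈ * (Z * √L * u ^ 3) :=
        mul_le_mul_of_nonneg_right hC8n h6
      linarith
  have h4 : ∀ τ ∈ T, SolC Sp a kk R V z Z (l.eval τ) τ := fun τ hτ => (hT τ hτ).2.2
  unfold SolC at h4
  choose! x y hX using h4
  obtain ⟨q, hq⟩ : ∃ q : ℝ, q = ∏ p ∈ Sp, (p : ℝ) ^ kk p := ⟨_, rfl⟩
  obtain ⟨qz, hqz⟩ : ∃ qz : ℤ, qz = ∏ p ∈ Sp, (p : ℤ) ^ kk p := ⟨_, rfl⟩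
  have hqc : (qz : ℝ) = q := by
    rw [hqz, hq]
    push_cast
    rfl
  have hqz0 : 0 < qz := by
    rw [hqz]
    apply Finset.prod_pos
    intro p hp
    have := (hSp p hp).pos
    positivity
  have hq0 : 0 < q := by
    rw [← hqc]
    exact_mod_cast hqz0
  have hτL : ∀ τ ∈ T, |(τ : ℝ)| ≤ L := fun τ hτ => (hT τ hτ).1
  have hdR : ∀ τ ∈ T, D ≤ ((l.eval τ : ℤ) : ℝ) ∧ ((l.eval τ : ℤ) : ℝ) ≤ 3 * D := by
    intro τ hτ
    refine ⟨(hT τ hτ).2.1, ?_⟩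
    have h1 := near_eval hN hDpos hS0 τ ((hτL τ hτ).trans hLS)
    have h2 := (abs_le.1 h1).2
    have h3 := hN.l02
    linarith
  obtain ⟨W, hW⟩ : ∃ W, W = D ^ σ := ⟨_, rfl⟩
  have hW1 : 1 ≤ W := hV1.trans (hW ▸ hVD)
  have hVW : V ≤ W := hW ▸ hVD
  obtain ⟨H, hH⟩ : ∃ H, H = 8 * (W * D ^ 2) := ⟨_, rfl⟩
  obtain ⟨hWD1, hWD, hWD2, hWD3, hWD4⟩ := ax4 hD1 hW1
  have hH1 : 1 ≤ H := by rw [hH]; linarith
  rw [← hW, ← hH] at hb1 hb2 hb3
  have hlH : ∀ i, |(l.coeff i : ℝ)| ≤ H := by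
    intro i
    have h3 := hN.l02
    have h30 := hN.l0
    have hD2 : 2 * D ≤ H := by
      rw [hH]
      exact hWD3
    rcases Nat.eq_zero_or_pos i with rfl | hi
    · rw [abs_of_nonneg (by linarith)]
      linarith
    · have h1 := hN.coef i hi
      have h2 : |(l.coeff i : ℝ)| ≤ |(l.coeff i : ℝ)| * S ^ i :=
        le_mul_of_one_le_right (abs_nonneg _) (one_le_pow₀ hS1)
      have h5 : (l.coeff 0 : ℝ) / (4 * ((k : ℝ) + 1)) ≤ (l.coeff 0 : ℝ) := by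
        apply div_le_self (by linarith)
        linarith
      linarith
  -- sizes
  have hLn : ∀ j ≤ n, L ^ j ≤ D := by
    intro j hj
    refine (pow_le_pow_right₀ hL1 hj).trans ?_
    rw [hL, ← Real.rpow_natCast, ← Real.rpow_mul hDpos.le]
    have h1 : 1 / (8 * (m : ℝ)) * n ≤ 1 := by
      rw [div_mul_eq_mul_div, one_mul, div_le_one (by positivity), hnr]
      linarith
    have := Real.rpow_le_rpow_of_exponent_le hD1 h1
    rwa [Real.rpow_one] at this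
  have hW2 : D ^ (2 * σ) = W ^ 2 := by
    rw [hW, mul_comm, Real.rpow_mul hDpos.le]
    norm_num
  have hnb : ∀ τ ∈ T, |((x τ ^ 2 - l.eval τ * y τ ^ 2 : ℤ) : ℝ)| ≤ Z * q := by
    intro τ hτ
    obtain ⟨-, -, -, -, ⟨n', -, hn'Z, hn'e⟩, -, -⟩ := hX τ hτ
    rw [hn'e, ← hqz, Int.cast_mul, abs_mul, hqc, abs_of_pos hq0]
    exact mul_le_mul_of_nonneg_right hn'Z hq0.le
  have hxR : ∀ τ ∈ T, |(x τ : ℝ)| ≤ 4 * (W * D) := by
    intro τ hτ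
    obtain ⟨hx1, hyV, hyV2, -⟩ := hX τ hτ
    have hnorm := hnb τ hτ
    push_cast at hnorm
    have h1 := (abs_le.1 hnorm).2
    have h2 := (hdR τ hτ).2
    have h3 : (0 : ℝ) ≤ y τ := by linarith
    have h4 : (y τ : ℝ) ^ 2 ≤ (2 * W) ^ 2 := pow_le_pow_left₀ h3 (by linarith) 2
    have h5 : ((l.eval τ : ℤ) : ℝ) * (y τ : ℝ) ^ 2 ≤ 3 * D * (2 * W) ^ 2 :=
      mul_le_mul h2 h4 (by positivity) (by positivity)
    refine abs_le_of_sq_le_sq ?_ (by positivity)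
    have h6 : Z * q ≤ D * W ^ 2 := by
      rw [← hW2]
      exact mul_le_mul hZD1 (hq ▸ hqD) hq0.le hDpos.le
    have h7 : D * W ^ 2 ≤ D ^ 2 * W ^ 2 := by
      have : D ≤ D ^ 2 := le_self_pow₀ hD1 two_ne_zero
      exact mul_le_mul_of_nonneg_right this (by positivity)
    have h77 : 0 ≤ D * W ^ 2 := by positivity
    have h8 : (x τ : ℝ) ^ 2 ≤ 13 * (D * W ^ 2) := by linarith
    calc (x τ : ℝ) ^ 2 ≤ 13 * (D * W ^ 2) := h8
      _ ≤ 16 * (D ^ 2 * W ^ 2) := by linarith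
      _ = (4 * (W * D)) ^ 2 := by ring
  have hyR : ∀ τ ∈ T, |(y τ : ℝ)| ≤ 2 * W := by
    intro τ hτ
    obtain ⟨-, hyV, hyV2, -⟩ := hX τ hτ
    rw [abs_of_nonneg (by linarith)]
    linarith
  have hτj : ∀ τ ∈ T, ∀ j ≤ n, |(τ : ℝ) ^ j| ≤ D := by
    intro τ hτ j hj
    rw [abs_pow]
    exact (pow_le_pow_left₀ (abs_nonneg _) (hτL τ hτ) j).trans (hLn j hj)
  have hWl : W ≤ W * D := le_mul_of_one_le_right (by linarith) hD1
  have hDW : D ≤ W * D := le_mul_of_one_le_left (by linarith) hW1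
  have hHx : ∀ τ ∈ T, ∀ ν : ℤ, 0 ≤ ν → ν ≤ x τ → ∀ j < n,
      |(((x τ - ν) * τ ^ j : ℤ) : ℝ)| ≤ H ∧ |((y τ * τ ^ j : ℤ) : ℝ)| ≤ H := by
    intro τ hτ ν hν0 hνx j hj
    push_cast
    rw [abs_mul, abs_mul, hH, pow_two, ← mul_assoc W]
    have h0 : |(x τ : ℝ) - ν| ≤ 5 * (W * D) := by
      have h00 : (0 : ℝ) ≤ (ν : ℝ) := by exact_mod_cast hν0
      have h01 : (ν : ℝ) ≤ (x τ : ℝ) := by exact_mod_cast hνx
      rw [abs_of_nonneg (by linarith)]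
      have := (abs_le.1 (hxR τ hτ)).2
      linarith
    have h01 : |(y τ : ℝ)| ≤ 2 * (W * D) := (hyR τ hτ).trans (by linarith)
    exact ⟨ax6 h0 (hτj τ hτ j hj.le) (by norm_num) (by norm_num) (by linarith),
      ax6 h01 (hτj τ hτ j hj.le) (by norm_num) (by norm_num) (by linarith)⟩
  have hdet : ∀ f : Fin m ⊕ Fin m → ℤ, (∀ i, f i ∈ T) →
      (Mat m (fun i => x (f i)) (fun i => y (f i)) f).det = 0 := by
    intro f hf
    refine hPV m D V σ S l (fun i => x (f i)) (fun i => y (f i)) f Sp a kk R hN.fam.deg hm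
      (hC87.trans hD) hσ0 hσm7 hC7m hV1 hVD hDε hN.l0 hN.l02 hN.coef
      (fun i => by rw [← hL]; exact hτL _ (hf i)) (fun i => (hdR _ (hf i)).1)
      (fun i => ⟨(hX _ (hf i)).2.1, (hX _ (hf i)).2.2.1⟩) (fun i => (hX _ (hf i)).1) hSp hpa hqD
      (fun p hp i => (hX _ (hf i)).2.2.2.2.2.1 p hp) (fun i => ?_)
    rw [← hq]
    exact (hnb _ (hf i)).trans (mul_le_mul_of_nonneg_right hZD hq0.le)
  obtain ⟨J, hJ⟩ : ∃ J : Finset ℤ, J = (Finset.Icc (-⌊Z⌋) ⌊Z⌋).image fun n => n * qz := ⟨_, rfl⟩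
  have hZ0 : 0 ≤ ⌊Z⌋ := Int.floor_nonneg.2 (by linarith)
  have hJc : (J.card : ℝ) ≤ 2 * Z + 1 := by
    have h0 : (J.card : ℝ) ≤ ((Finset.Icc (-⌊Z⌋) ⌊Z⌋).card : ℝ) := by
      rw [hJ]
      exact_mod_cast Finset.card_image_le
    refine h0.trans ?_
    rw [Int.card_Icc]
    have h2 : (((⌊Z⌋ + 1 - -⌊Z⌋).toNat : ℕ) : ℤ) = 2 * ⌊Z⌋ + 1 := by
      rw [Int.toNat_of_nonneg (by omega)]
      ring
    have h3 : (((⌊Z⌋ + 1 - -⌊Z⌋).toNat : ℕ) : ℝ) = 2 * ((⌊Z⌋ : ℤ) : ℝ) + 1 := by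
      have h4 := congrArg (Int.cast : ℤ → ℝ) h2
      rw [Int.cast_natCast] at h4
      rw [h4]
      push_cast
      ring
    rw [h3]
    have := Int.floor_le Z
    linarith
  have hJW : ∀ N ∈ J, |(N : ℝ)| ≤ D * D ^ (2 * σ) := by
    intro N hNJ
    rw [hJ, Finset.mem_image] at hNJ
    obtain ⟨n', hn', rfl⟩ := hNJ
    rw [Finset.mem_Icc] at hn'
    rw [Int.cast_mul, abs_mul, hqc, abs_of_pos hq0]
    have h1 : |(n' : ℝ)| ≤ D := by
      refine le_trans ?_ hZD1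
      have h2 := Int.floor_le Z
      have h3 : (n' : ℝ) ≤ ⌊Z⌋ := by exact_mod_cast hn'.2
      have h4 : -((⌊Z⌋ : ℤ) : ℝ) ≤ (n' : ℝ) := by exact_mod_cast hn'.1
      exact abs_le.2 ⟨by linarith, by linarith⟩
    exact mul_le_mul h1 (hq ▸ hqD) hq0.le hDpos.le
  have hbase : ∀ τ ∈ T, PtA z L J l x y τ := by
    intro τ hτ
    obtain ⟨hx0, hyV, hyV2, hcop, ⟨n', hn'0, hn'Z, hn'e⟩, hdv, hbf⟩ := hX τ hτ
    have hl1 : (1 : ℝ) ≤ ((l.eval τ : ℤ) : ℝ) := hD1.trans (hdR τ hτ).1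
    have hl1' : 1 ≤ l.eval τ := by exact_mod_cast hl1
    have hy1 : (1 : ℝ) ≤ (y τ : ℝ) := hV1.trans hyV
    refine ⟨hτL τ hτ, by omega, hx0, by exact_mod_cast hy1, hcop, ?_, ?_, hbf⟩
    · rw [hn'e, ← hqz]
      exact mul_ne_zero hn'0 hqz0.ne'
    · rw [hn'e, ← hqz, hJ, Finset.mem_image]
      refine ⟨n', ?_, rfl⟩
      rw [Finset.mem_Icc]
      obtain ⟨h1, h2⟩ := abs_le.1 hn'Z
      constructor
      · have h3 : -n' ≤ ⌊Z⌋ := by
          apply Int.le_floor.2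
          push_cast
          linarith
        omega
      · exact Int.le_floor.2 h2
  have h4m : (3 * n : ℝ) ≤ Λ := by rw [hnr]; linarith
  have hW01 : 1 ≤ D * D ^ (2 * σ) := by
    have h1 : 1 ≤ D ^ (2 * σ) := Real.one_le_rpow hD1 (by positivity)
    exact one_le_mul_of_one_le_of_one_le hD1 h1
  have hWexp : D * D ^ (2 * σ) * (n * (2 * n * H) ^ (2 * n) * L ^ n) ≤ Real.exp Λ := by
    obtain ⟨Xx, hXx⟩ : ∃ Xx, Xx = (n : ℝ) * (2 * n * H) ^ (2 * n) * L ^ n := ⟨_, rfl⟩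
    have hXx0 : 0 ≤ Xx := by rw [hXx]; positivity
    rw [← hXx] at hb2 ⊢
    have h1 : D ^ (2 * σ) ≤ Real.exp (2 * (m : ℝ) ^ 2 * Real.log D) := by
      rw [Real.rpow_def_of_pos hDpos]
      apply Real.exp_le_exp.2
      have h2 : σ ≤ (m : ℝ) ^ 2 := hσle.trans (le_self_pow₀ hm1 two_ne_zero)
      have h21 : Real.log D * σ ≤ Real.log D * (m : ℝ) ^ 2 :=
        mul_le_mul_of_nonneg_left h2 (zero_le_one.trans hl1)
      linarith
    have h3 : D * Xx ≤ Real.exp (50 * (m : ℝ) ^ 2 * Real.log D) := by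
      refine le_trans ?_ hb2
      have : 0 ≤ D * Xx := by positivity
      linarith
    calc D * D ^ (2 * σ) * Xx = D ^ (2 * σ) * (D * Xx) := by ring
      _ ≤ Real.exp (2 * (m : ℝ) ^ 2 * Real.log D) * Real.exp (50 * (m : ℝ) ^ 2 * Real.log D) :=
        mul_le_mul h1 h3 (by positivity) (Real.exp_pos _).le
      _ = Real.exp Λ := by
        rw [← Real.exp_add, hΛ]
        congr 1
        ring
  obtain ⟨M, hM0, hM, E, hE, hEc, hgE⟩ := hCO k l hN.fam m n L z (D * D ^ (2 * σ)) Λ H J T x y hkm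
    hm hn hL1 hz1 hW01 hΛ1 h4m hlog hH1 hlH hbase hJW hHx hdet hWexp
  refine ⟨M, hM0, hM.trans ?_, E, hE, hEc.trans ?_, hgE⟩
  · have h1 : Real.exp (500 * (m : ℝ) ^ 3 * Real.log D) =
        Real.exp (250 * (m : ℝ) ^ 3 * Real.log D) ^ 2 := by
      rw [← Real.exp_nat_mul]
      congr 1
      push_cast
      ring
    rw [h1]
    exact pow_le_pow_left₀ (by positivity) hb3 2
  · have h1 : 0 ≤ 400000 * √L * Λ ^ 3 := by positivity
    have h2 : ((J.card : ℝ) + 1) * (400000 * √L * Λ ^ 3) ≤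
        (2 * Z + 2) * (400000 * √L * Λ ^ 3) :=
      mul_le_mul_of_nonneg_right (by linarith) h1
    linarith

end Pool.Agent.H31.AD.PI
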